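import Pool.Agent.MP_bd94e8_al.H83A.Kit

/-!
The data of the reduction exist.
-/

set_option autoImplicit false
set_option linter.unusedVariables false
set_option linter.unusedSectionVars false

namespace Pool.Agent.MP_bd94e8_al.H83A

open Module Function IsLocalRing H89

namespace RedA

theorem exF {R : Type} [Ring R] (h : IsField R) :
    ∃ (F : Type) (_ : Field F), Nonempty (F ≃+* R) :=
  ⟨R, h.toField, ⟨RingEquiv.refl R⟩⟩

/-- The field of endomorphisms of a simple module. -/
theorem fld (C A S : Type) [CommRing C] [IsArtinianRing C] [IsLocalRing C] [Ring A] [Algebra C A]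
    [Module.Finite C A] [AddCommGroup S] [Module A S] [IsSimpleModule A S]
    (hc : ∀ σ τ : End A S, σ * τ = τ * σ)
    (hp : ∀ σ : End A S, ∃ (r : ℕ) (c : C), ∀ x,
      (σ ^ (ringExpChar (ResidueField C) ^ r)) x = algebraMap C A c • x) :
    ∃ (F : Type) (_ : Field F) (_ : Algebra (ResidueField C) F) (_ : Algebra C F)
      (_ : IsScalarTower C (ResidueField C) F) (_ : FiniteDimensional (ResidueField C) F)
      (_ : IsPurelyInseparable (ResidueField C) F) (_ : Module F S) (_ : SMulCommClass A F S),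
      (∀ σ : S →ₗ[A] S, ∃ c : F, ∀ x, σ x = c • x) ∧
      ∀ (c : C) (x : S), algebraMap C A c • x = algebraMap C F c • x := by
  classical
  have hF : IsField (End A S) :=
    ⟨exists_pair_ne _, hc, fun {a} ha => ⟨a⁻¹, mul_inv_cancel₀ ha⟩⟩
  obtain ⟨F, _, ⟨ρ⟩⟩ := exF hF
  let := modC C A S
  have := towC C A S
  let φ : C →+* F := ρ.symm.toRingHom.comp (algebraMap C (End A S))
  have hφ : ∀ c x, ρ (φ c) x = algebraMap C A c • x := fun c x => by
    simp only [φ, RingHom.comp_apply, RingEquiv.toRingHom_eq_coe, RingHom.coe_coe,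
      RingEquiv.apply_symm_apply]
    rfl
  have h0 : ∀ c ∈ maximalIdeal C, φ c = 0 := fun c hc => ((max_nil C hc).map φ).eq_zero
  let ψ : ResidueField C →+* F := Ideal.Quotient.lift (maximalIdeal C) φ h0
  let : Algebra C F := φ.toAlgebra
  let : Algebra (ResidueField C) F := ψ.toAlgebra
  have : IsScalarTower C (ResidueField C) F := IsScalarTower.of_algebraMap_eq fun _ => rfl
  let : Module F S := Module.compHom S ρ.toRingHom
  have hs : ∀ (c : F) (x : S), c • x = ρ c x := fun _ _ => rfl
  have : SMulCommClass A F S := ⟨fun a c x => by rw [hs, hs, map_smul]⟩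
  have : Module.Finite A S := inferInstance
  have : Module.Finite C (End A S) := H83.homFin
  have hfin : Module.Finite C F := by
    refine Module.Finite.of_injective
      (⟨⟨fun c => ρ c, fun a b => map_add ρ a b⟩, fun c a => ?_⟩ : F →ₗ[C] End A S) ρ.injective
    ext x
    change ρ (φ c * a) x = _
    rw [map_mul]
    exact hφ c _
  refine ⟨F, inferInstance, inferInstance, inferInstance, inferInstance,
    Module.Finite.of_restrictScalars_finite C _ _, ?_, inferInstance, inferInstance,
    fun σ => ⟨ρ.symm σ, fun x => by rw [hs, RingEquiv.apply_symm_apply]⟩,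
    fun c x => (hφ c x).symm⟩
  rw [isPurelyInseparable_iff_pow_mem _ (ringExpChar (ResidueField C))]
  intro y
  obtain ⟨r, c, h⟩ := hp (ρ y)
  refine ⟨r, residue C c, ρ.injective ?_⟩
  ext x
  rw [map_pow, h]
  exact hφ c x

section gen
variable {A S : Type} [Ring A] [AddCommGroup S] [Module A S] {e : A} {a : S}

theorem mem_jac (he : IsIdempotentElem e) (hl : LocAt e) (ha : a ≠ 0) (h1 : e • a = a) {r : A}
    (hr : r • a = 0) : r * e ∈ Ring.jacobson A := by
  by_contra h
  obtain ⟨y, -, hy⟩ := LocAt.left_inv (e := 1) (x := r * e) IsIdempotentElem.one he hl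
    (by rw [one_mul, mul_assoc, he.eq]) h
  exact ha (by rw [← h1, ← hy, mul_smul, mul_smul, h1, hr, smul_zero])

theorem simple (he : IsIdempotentElem e) (hl : LocAt e) (ha : a ≠ 0) (h1 : e • a = a)
    (hJ : ∀ r ∈ Ring.jacobson A, r • a = 0) (hg : ∀ x : S, ∃ r : A, r • a = x) :
    IsSimpleModule A S := by
  refine isSimpleModule_iff_toSpanSingleton_surjective.2 ⟨⟨a, 0, ha⟩, fun x hx z => ?_⟩
  obtain ⟨r, rfl⟩ := hg x
  obtain ⟨t, rfl⟩ := hg z
  have h : r * e ∉ Ring.jacobson A := fun h => hx (by rw [← h1, ← mul_smul]; exact hJ _ h)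
  obtain ⟨y, -, hy⟩ := LocAt.left_inv (e := 1) (x := r * e) IsIdempotentElem.one he hl
    (by rw [one_mul, mul_assoc, he.eq]) h
  refine ⟨t * y, ?_⟩
  rw [LinearMap.toSpanSingleton_apply, mul_smul, ← h1, ← mul_smul r, ← mul_smul y, hy]

theorem corner (h1 : e • a = a) (hg : ∀ x : S, ∃ r : A, r • a = x) (σ : S →ₗ[A] S) :
    ∃ b : A, σ a = (e * b * e) • a := by
  obtain ⟨b, hb⟩ := hg (σ a)
  exact ⟨b, by rw [mul_smul, mul_smul, h1, hb, ← map_smul, h1]⟩

theorem pow_app {σ : End A S} {β : A} (h : σ a = β • a) (n : ℕ) : (σ ^ n) a = β ^ n • a := by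
  induction n with
  | zero => simp
  | succ n ih => rw [pow_succ, End.mul_apply, h, map_smul, ih, ← mul_smul, ← pow_succ']

end gen

/-- The field attached to a socle element. -/
theorem fld' (C A S : Type) [CommRing C] [IsArtinianRing C] [IsLocalRing C] [Ring A] [Algebra C A]
    [Module.Finite C A] [AddCommGroup S] [Module A S] {n : ℕ} {e : Fin n → A} (h : PIA C A e)
    (s : Fin n) {a : S} (ha : a ≠ 0) (h1 : e s • a = a)
    (hJ : ∀ r ∈ Ring.jacobson A, r • a = 0) (hg : ∀ x : S, ∃ r : A, r • a = x) :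
    ∃ (F : Type) (_ : Field F) (_ : Algebra (ResidueField C) F) (_ : Algebra C F)
      (_ : IsScalarTower C (ResidueField C) F) (_ : FiniteDimensional (ResidueField C) F)
      (_ : IsPurelyInseparable (ResidueField C) F) (_ : Module F S) (_ : SMulCommClass A F S),
      (∀ σ : S →ₗ[A] S, ∃ c : F, ∀ x, σ x = c • x) ∧
      ∀ (c : C) (x : S), algebraMap C A c • x = algebraMap C F c • x := by
  have he := h.idem.idem s
  have hl := h.locAt C s
  have := simple he hl ha h1 hJ hg
  refine fld C A S (fun σ τ => ?_) fun σ => ?_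
  · obtain ⟨b, hb⟩ := corner h1 hg σ
    obtain ⟨b', hb'⟩ := corner h1 hg τ
    have h2 := hJ _ (LocAt.mem_jac he hl ?_ (h.comm s b b'))
    · ext x
      obtain ⟨r, rfl⟩ := hg x
      rw [map_smul, map_smul, End.mul_apply, End.mul_apply, hb, hb', map_smul, map_smul, hb, hb',
        ← mul_smul (e s * b' * e s), ← mul_smul (e s * b * e s)]
      rw [sub_smul, sub_eq_zero] at h2
      rw [h2]
    · simp only [mul_sub, sub_mul, ← mul_assoc, he.eq]
      simp only [mul_assoc, he.eq]
  · obtain ⟨b, hb⟩ := corner h1 hg σ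
    obtain ⟨r, c, hc⟩ := h.pi s b
    refine ⟨r, c, fun x => ?_⟩
    obtain ⟨m, hm⟩ : ∃ m, ringExpChar (ResidueField C) ^ r = m + 1 :=
      Nat.exists_eq_succ_of_ne_zero (pow_pos (expChar_pos (ResidueField C) _) r).ne'
    have h2 := hJ _ (LocAt.mem_jac he hl ?_ hc)
    · obtain ⟨t, rfl⟩ := hg x
      rw [sub_smul, sub_eq_zero] at h2
      rw [map_smul, pow_app hb, h2, Algebra.smul_def, mul_smul, h1, ← mul_smul, ← mul_smul,
        Algebra.commutes]
    · rw [hm, mul_sub, sub_mul, mul_smul_comm, smul_mul_assoc, he.eq, he.eq]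
      congr 1
      rw [idem_left he (x := (e s * b * e s) ^ (m + 1)) (y := b * e s * (e s * b * e s) ^ m)
        (by rw [pow_succ']; simp only [mul_assoc])]
      exact idem_right he (y := (e s * b * e s) ^ m * (e s * b))
        (by rw [pow_succ]; simp only [mul_assoc])

/-- The quotient condition when there are no loops. -/
theorem quot_beta {A S : Type} [Ring A] [AddCommGroup S] [Module A S] {e : A} {a : S}
    (he : IsIdempotentElem e) (hl : LocAt e) (ha : a ≠ 0) (h1 : e • a = a)
    (hJ : ∀ r ∈ Ring.jacobson A, r • a = 0) (hg : ∀ x : S, ∃ r : A, r • a = x)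
    (hb : ∀ r ∈ Ring.jacobson A, e * r * e ∈ Ring.jacobson A * Ring.jacobson A)
    (M : Type) [AddCommGroup M] [Module A M]
    (h : S →ₗ[A] M ⧸ Wm (LinearMap.id : S →ₗ[A] S) M) : h ∘ₗ LinearMap.id = 0 := by
  have := simple he hl ha h1 hJ hg
  let W := Wm (LinearMap.id : S →ₗ[A] S) M
  have hmem : ∀ (g : S →ₗ[A] M) (y : S), g y ∈ W := fun g y =>
    Submodule.mem_iSup_of_mem g ⟨y, rfl⟩
  have hss : IsSemisimpleModule A W := by
    have := isSemisimpleModule_biSup_of_isSemisimpleModule_submodule (R := A) (s := Set.univ)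
      (p := fun g : S →ₗ[A] M => LinearMap.range (g ∘ₗ LinearMap.id))
      fun g _ => IsSemisimpleModule.range _
    rwa [iSup_univ] at this
  have hJW : ∀ r ∈ Ring.jacobson A, ∀ w ∈ W, r • w = 0 := fun r hr w hw => by
    refine Submodule.iSup_induction _ (motive := fun w => r • w = 0) hw ?_ (smul_zero _)
      fun x y hx hy => by rw [smul_add, hx, hy, add_zero]
    rintro g _ ⟨y, rfl⟩
    obtain ⟨t, rfl⟩ := hg y
    rw [← map_smul, ← mul_smul, hJ _ (Ideal.mul_mem_right _ _ hr), map_zero]
  have hW0 : ∀ w ∈ W, (∀ r : A, e • r • w = 0) → w = 0 := fun w hw h0 => by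
    have hle : Submodule.span A {w} ≤ W := by simpa using hw
    obtain ⟨p, hp⟩ := IsSemisimpleModule.extension_property (Submodule.inclusion hle)
      (Submodule.inclusion_injective hle) LinearMap.id
    have h2 : ∀ x (hx : x ∈ W), p ⟨x, hx⟩ = 0 := fun x hx => by
      refine Submodule.iSup_induction' _ (motive := fun x hx => p ⟨x, hx⟩ = 0) ?_ (map_zero p)
        (fun x y hx hy h3 h4 => ?_) hx
      · rintro g _ ⟨y, rfl⟩
        obtain ⟨t, rfl⟩ := hg y
        have h5 : (⟨_, hmem g (t • a)⟩ : W) = t • e • ⟨g a, hmem g a⟩ :=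
          Subtype.ext (by simp only [Submodule.coe_smul, ← map_smul, h1])
        refine (congrArg p h5).trans ?_
        obtain ⟨u, hu⟩ := Submodule.mem_span_singleton.1 (p ⟨g a, hmem g a⟩).2
        have h6 : e • p ⟨g a, hmem g a⟩ = 0 :=
          Subtype.ext (by rw [Submodule.coe_smul, ← hu, h0]; rfl)
        rw [map_smul, map_smul, h6, smul_zero]
      · exact (map_add p ⟨x, hx⟩ ⟨y, hy⟩).trans (by rw [h3, h4, add_zero])
    have h7 := LinearMap.congr_fun hp ⟨w, Submodule.mem_span_singleton_self w⟩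
    exact congrArg Subtype.val (h7.symm.trans (h2 w hw))
  obtain ⟨x0, hx0⟩ := W.mkQ_surjective (h a)
  have hx : W.mkQ (e • x0) = h a := by rw [map_smul, hx0, ← map_smul, h1]
  have hex : e • e • x0 = e • x0 := by rw [← mul_smul, he.eq]
  set x := e • x0
  have hJx : ∀ r ∈ Ring.jacobson A, r • x ∈ W := fun r hr => by
    rw [← Submodule.Quotient.mk_eq_zero, ← Submodule.mkQ_apply, map_smul, hx, ← map_smul, hJ r hr,
      map_zero]
  have hJJ : ∀ y ∈ Ring.jacobson A * Ring.jacobson A, y • x = 0 := fun y hy => by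
    refine Submodule.mul_induction_on hy (fun r hr r' hr' => ?_)
      fun y z hy hz => by rw [add_smul, hy, hz, add_zero]
    rw [mul_smul]
    exact hJW r hr _ (hJx r' hr')
  have hJ0 : ∀ r ∈ Ring.jacobson A, r • x = 0 := fun r hr => hW0 _ (hJx r hr) fun r' => by
    have := hJJ _ (hb _ (Ideal.mul_mem_left _ r' hr))
    rwa [mul_smul, mul_smul, mul_smul, hex] at this
  obtain ⟨u, hu⟩ := H83.exists_desc (ρ := LinearMap.toSpanSingleton A S a) hg
    (LinearMap.toSpanSingleton A M x) fun r hr => by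
      have := hJ0 _ (mem_jac he hl ha h1 hr)
      rwa [mul_smul, hex] at this
  have hua : u a = x := by simpa using LinearMap.congr_fun hu 1
  have h0 : h a = 0 := by
    rw [← hx, Submodule.mkQ_apply, Submodule.Quotient.mk_eq_zero, ← hua]
    exact hmem u a
  ext y
  obtain ⟨r, rfl⟩ := hg y
  simp [h0]

end RedA

open RedA in
theorem red : SRed := by
  intro C A _ _ _ _ _ _ n e h hab
  have hg : ∀ (a : A) (x : Submodule.span A {a}),
      ∃ r : A, r • (⟨a, Submodule.mem_span_singleton_self a⟩ : Submodule.span A {a}) = x :=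
    fun a x => by
      obtain ⟨r, hr⟩ := Submodule.mem_span_singleton.1 x.2
      exact ⟨r, Subtype.ext hr⟩
  rcases hab with ⟨s, l, a, ha, h1, hJ, h2, h3⟩ | ⟨s, a, ha, h1, hJ, h2⟩
  · have hs := h.idem.idem s
    have hl := h.idem.idem l
    set a' : Submodule.span A {a} := ⟨a, Submodule.mem_span_singleton_self a⟩ with ha'
    set z : Submodule.span A {e l} := ⟨e l, Submodule.mem_span_singleton_self _⟩ with hz
    have b0 : a' ≠ 0 := fun h => ha (congrArg Subtype.val h)
    have b1 : e s • a' = a' := Subtype.ext (cn_left hs h1)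
    have bJ : ∀ r ∈ Ring.jacobson A, r • a' = 0 := fun r hr => Subtype.ext (hJ r hr)
    obtain ⟨F, i1, i2, i3, i4, i5, i6, i7, i8, hσ, hc⟩ := fld' C A _ h s b0 b1 bJ (hg a)
    have hle : Submodule.span A {a} ≤ Submodule.span A {e l} := by
      rw [Submodule.span_singleton_le_iff_mem]
      exact Submodule.mem_span_singleton.2 ⟨a, cn_right hl h1⟩
    have hP : Projective A (Submodule.span A {e l}) := by
      refine Projective.of_split (Submodule.subtype _) (LinearMap.toSpanSingleton A _ z) ?_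
      ext y
      obtain ⟨r, rfl⟩ := hg _ y
      change r * e l * e l = r * e l
      rw [mul_assoc, hl.eq]
    refine ⟨F, Submodule.span A {a}, Submodule.span A {e l}, i1, i2, i3, i4, i5, i6, inferInstance,
      inferInstance, i7, i8, inferInstance, inferInstance, inferInstance, Submodule.inclusion hle,
      ⟨simple hs (h.locAt C s) b0 b1 bJ (hg a), Submodule.inclusion_injective hle, hσ,
        fun c => ?_, fun M _ _ g => ?_, ⟨Submodule.subtype _, fun h0 => ?_⟩,
        Or.inr ⟨hP, fun τ x => ?_⟩⟩, hc⟩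
    · obtain ⟨b, hb⟩ := corner b1 (hg a) (c • LinearMap.id)
      obtain ⟨b', hb'⟩ := h2 b
      refine ⟨LinearMap.toSpanSingleton A _ ((e l * b') • z) ∘ₗ Submodule.subtype _, fun x => ?_⟩
      obtain ⟨r, rfl⟩ := hg a x
      have hb2 : c • a' = (e s * b * e s) • a' := hb
      rw [← smul_comm r c a', hb2]
      refine Subtype.ext ?_
      change r * a * (e l * b' * e l) = r * (e s * b * e s * a)
      rw [hb', mul_assoc]
    · obtain ⟨g', rfl⟩ := projective_lifting_property (Submodule.mkQ _) g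
        (Submodule.mkQ_surjective _)
      ext x
      exact (Submodule.Quotient.mk_eq_zero _).2 (Submodule.mem_iSup_of_mem g' ⟨x, rfl⟩)
    · exact ha (LinearMap.congr_fun h0 a')
    · obtain ⟨r, rfl⟩ := hg a x
      have hz1 : e l • z = z := Subtype.ext hl.eq
      obtain ⟨b', hb'⟩ := corner hz1 (hg _) τ
      obtain ⟨b, hb⟩ := h3 b'
      have h4 : Submodule.inclusion hle a' = a • z := Subtype.ext (cn_right hl h1).symm
      refine ⟨(r * (e s * b * e s)) • a', ?_⟩
      rw [map_smul _ r, h4, map_smul τ, map_smul τ, hb']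
      refine Subtype.ext ?_
      change r * (e s * b * e s) * a = r * (a * (e l * b' * e l * e l))
      rw [mul_assoc r, hb, mul_assoc _ (e l) (e l), hl.eq]
  · have hs := h.idem.idem s
    set a' : Submodule.span A {a} := ⟨a, Submodule.mem_span_singleton_self a⟩ with ha'
    have b0 : a' ≠ 0 := fun h => ha (congrArg Subtype.val h)
    have b1 : e s • a' = a' := Subtype.ext h1
    have bJ : ∀ r ∈ Ring.jacobson A, r • a' = 0 := fun r hr => Subtype.ext (hJ r hr)
    obtain ⟨F, i1, i2, i3, i4, i5, i6, i7, i8, hσ, hc⟩ := fld' C A _ h s b0 b1 bJ (hg a)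
    exact ⟨F, Submodule.span A {a}, Submodule.span A {a}, i1, i2, i3, i4, i5, i6, inferInstance,
      inferInstance, i7, i8, inferInstance, inferInstance, inferInstance, LinearMap.id,
      ⟨simple hs (h.locAt C s) b0 b1 bJ (hg a), injective_id, hσ,
        fun c => ⟨c • LinearMap.id, fun _ => rfl⟩,
        quot_beta hs (h.locAt C s) b0 b1 bJ (hg a) h2,
        ⟨Submodule.subtype _, fun h0 => ha (LinearMap.congr_fun h0 a')⟩,
        Or.inl surjective_id⟩, hc⟩

end Pool.Agent.MP_bd94e8_al.H83A
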